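import Mathlib
import Pool.Agent.Y647.RG.XRep

/-!
# X-replacements which produce claw-free graphs

If an X-replacement of a generically 3-independent graph is claw-free, then it is generically
3-independent.
-/

set_option autoImplicit false

namespace Pool.Agent.Results.MP_5e72fd_co.XClawFree

open Finset Pool.Agent.H789R5 Pool.Agent.H283R2.DR

/-- no vertex has three pairwise non-adjacent neighbours -/
def ClawFree {V : Type} (G : SimpleGraph V) : Prop :=
  ∀ v a b c, G.Adj v a → G.Adj v b → G.Adj v c → a ≠ b → a ≠ c → b ≠ c →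
    G.Adj a b ∨ G.Adj a c ∨ G.Adj b c

/-- `G` is generically 3-independent: at some placement in `ℝ³` the rows of the rigidity matrix are
linearly independent. -/
def Independent {V : Type} (G : SimpleGraph V) : Prop :=
  ∃ p : V → Fin 3 → ℝ, LinearIndependent ℝ (rigidityMatrix G p).row

/-- The X-replacement of `G`: delete the edges `ab` and `cd`, add the new vertex `none` and join it
to `a`, `b`, `c`, `d`, `e`. -/
def xrep {V : Type} (G : SimpleGraph V) (a b c d e : V) : SimpleGraph (Option V) :=
  SimpleGraph.fromRel fun x y =>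
    (∃ u w, x = some u ∧ y = some w ∧ G.Adj u w ∧ s(u, w) ≠ s(a, b) ∧ s(u, w) ≠ s(c, d)) ∨
    (x = none ∧ ∃ u, (u = a ∨ u = b ∨ u = c ∨ u = d ∨ u = e) ∧ y = some u)

theorem rank_le {V : Type} [Fintype V] (G : SimpleGraph V) (p : V → Fin 3 → ℝ) :
    (rigidityMatrix G p).rank ≤ genRank 3 G := by
  obtain ⟨p0, hp0⟩ := exists_mg V 3
  have h0 := genRank_add hp0 G
  have h2 := rank_add_mo G p
  have h3 := hp0.min G p
  omega

theorem indep_of_rank {V : Type} [Fintype V] (G : SimpleGraph V)
    (h : G.edgeSet.ncard ≤ genRank 3 G) : Independent G := by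
  classical
  obtain ⟨p, hp⟩ := exists_mg V 3
  have e1 := genRank_add hp G
  have e2 := rank_add_mo G p
  refine ⟨p, ?_⟩
  rw [linearIndependent_iff_card_le_finrank_span]
  have e5 : (rigidityMatrix G p).rank = (Set.range (rigidityMatrix G p).row).finrank ℝ :=
    Matrix.rank_eq_finrank_span_row _
  rw [← e5]
  have e6 : Fintype.card G.edgeSet = G.edgeSet.ncard := by
    rw [Set.ncard_eq_toFinset_card', Set.toFinset_card]
  omega

theorem rank_of_indep {V : Type} [Fintype V] (G : SimpleGraph V) (h : Independent G) :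
    G.edgeSet.ncard ≤ genRank 3 (G.map (Function.Embedding.some : V ↪ Option V)) := by
  classical
  obtain ⟨p, hp⟩ := h
  let p' : Option V → Fin 3 → ℝ := fun x => x.elim 0 p
  set G1 := G.map (Function.Embedding.some : V ↪ Option V) with hG1
  have hmem : ∀ e ∈ G.edgeSet, Sym2.map some e ∈ G1.edgeSet := by
    intro e he
    induction e using Sym2.ind with
    | _ x y =>
      rw [Sym2.map_mk, SimpleGraph.mem_edgeSet, hG1, SimpleGraph.map_adj]
      exact ⟨x, y, he, rfl, rfl⟩
  let φ : G.edgeSet → G1.edgeSet := fun e => ⟨Sym2.map some e.1, hmem e.1 e.2⟩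
  let L : (Option V × Fin 3 → ℝ) →ₗ[ℝ] (V × Fin 3 → ℝ) :=
    LinearMap.funLeft ℝ ℝ fun c => (some c.1, c.2)
  have hL : ∀ e : G.edgeSet, L ((rigidityMatrix G1 p').row (φ e)) = (rigidityMatrix G p).row e := by
    rintro ⟨e, he⟩
    induction e using Sym2.ind with
    | _ x y =>
      funext c
      show row p' (some x) (some y) (some c.1, c.2) = row p x y c
      unfold row
      simp only [Option.some.injEq]
      rfl
  have h1 : LinearIndependent ℝ (fun e => (rigidityMatrix G1 p').row (φ e)) := by
    apply LinearIndependent.of_comp L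
    have : (L ∘ fun e => (rigidityMatrix G1 p').row (φ e)) = (rigidityMatrix G p).row :=
      funext hL
    rw [this]
    exact hp
  have h2 := finrank_span_eq_card h1
  have h3 : (rigidityMatrix G1 p').rank =
      Module.finrank ℝ (Submodule.span ℝ (Set.range (rigidityMatrix G1 p').row)) :=
    Matrix.rank_eq_finrank_span_row _
  have h4 : Submodule.span ℝ (Set.range fun e => (rigidityMatrix G1 p').row (φ e)) ≤
      Submodule.span ℝ (Set.range (rigidityMatrix G1 p').row) := by
    apply Submodule.span_mono
    rintro _ ⟨e, rfl⟩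
    exact ⟨φ e, rfl⟩
  have h5 := Submodule.finrank_mono h4
  have h6 := rank_le G1 p'
  have e6 : Fintype.card G.edgeSet = G.edgeSet.ncard := by
    rw [Set.ncard_eq_toFinset_card', Set.toFinset_card]
  omega

theorem card_xrep {V : Type} [Fintype V] (G : SimpleGraph V) {a b c d e : V}
    (hne : s(a, b) ≠ s(c, d)) (hab : G.Adj a b) (hcd : G.Adj c d) :
    (xrep G a b c d e).edgeSet.ncard ≤ G.edgeSet.ncard + 3 := by
  classical
  set A : Set (Sym2 (Option V)) := Sym2.map some '' (G.edgeSet \ {s(a, b), s(c, d)}) with hA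
  set B : Set (Sym2 (Option V)) := (fun u => s(none, some u)) '' ({a, b, c, d, e} : Set V) with hB
  have key : ∀ x y : Option V,
      ((∃ u w, x = some u ∧ y = some w ∧ G.Adj u w ∧ s(u, w) ≠ s(a, b) ∧ s(u, w) ≠ s(c, d)) ∨
      (x = none ∧ ∃ u, (u = a ∨ u = b ∨ u = c ∨ u = d ∨ u = e) ∧ y = some u)) →
      s(x, y) ∈ A ∪ B := by
    rintro x y (⟨u, w, rfl, rfl, h1, h2, h3⟩ | ⟨rfl, u, hu, rfl⟩)
    · left
      refine ⟨s(u, w), ⟨h1, ?_⟩, rfl⟩
      rintro (h | h)
      · exact h2 h
      · exact h3 h
    · right
      exact ⟨u, hu, rfl⟩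
  have hsub : (xrep G a b c d e).edgeSet ⊆ A ∪ B := by
    intro z hz
    induction z using Sym2.ind with
    | _ x y =>
      rw [SimpleGraph.mem_edgeSet, xrep, SimpleGraph.fromRel_adj] at hz
      rcases hz.2 with h | h
      · exact key x y h
      · rw [Sym2.eq_swap]
        exact key y x h
  have h1 := Set.ncard_le_ncard hsub (Set.toFinite _)
  have h2 := Set.ncard_union_le A B
  have h3 : A.ncard ≤ (G.edgeSet \ {s(a, b), s(c, d)}).ncard :=
    Set.ncard_image_le (Set.toFinite _)
  have h4 : (G.edgeSet \ {s(a, b), s(c, d)}).ncard + 2 = G.edgeSet.ncard := by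
    rw [← Set.ncard_pair hne]
    refine Set.ncard_sdiff_add_ncard_of_subset ?_ (Set.toFinite _)
    rintro z (rfl | rfl)
    · exact hab
    · exact hcd
  have h5 : B.ncard ≤ ({a, b, c, d, e} : Set V).ncard := Set.ncard_image_le (Set.toFinite _)
  have h6 : ({a, b, c, d, e} : Set V).ncard ≤ 5 := by
    have i1 := Set.ncard_insert_le a ({b, c, d, e} : Set V)
    have i2 := Set.ncard_insert_le b ({c, d, e} : Set V)
    have i3 := Set.ncard_insert_le c ({d, e} : Set V)
    have i4 := Set.ncard_insert_le d ({e} : Set V)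
    have i5 := Set.ncard_singleton e
    omega
  omega

/-- **X-replacements which produce claw-free graphs preserve generic 3-independence.** -/
theorem result (V : Type) [Fintype V] (G : SimpleGraph V) (a b c d e : V)
    (hne : [a, b, c, d, e].Nodup) (hab : G.Adj a b) (hcd : G.Adj c d) (hG : Independent G)
    (hc : ClawFree (xrep G a b c d e)) : Independent (xrep G a b c d e) := by
  classical
  simp only [List.nodup_cons, List.mem_cons, List.not_mem_nil, or_false, not_or, List.nodup_nil,
    and_true, not_false_eq_true] at hne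
  obtain ⟨⟨n1, n2, n3, n4⟩, ⟨n5, n6, n7⟩, ⟨n8, n9⟩, n10⟩ := hne
  have hne' : s(a, b) ≠ s(c, d) := by
    intro h
    rcases Sym2.eq_iff.1 h with ⟨h1, -⟩ | ⟨h1, -⟩
    · exact n2 h1
    · exact n3 h1
  apply indep_of_rank
  have h1 := rank_of_indep G hG
  have h2 := card_xrep (e := e) G hne' hab hcd
  have hadj : ∀ u, (u = a ∨ u = b ∨ u = c ∨ u = d ∨ u = e) →
      (xrep G a b c d e).Adj none (some u) := by
    intro u hu
    rw [xrep, SimpleGraph.fromRel_adj]
    exact ⟨by simp, Or.inl (Or.inr ⟨rfl, u, hu, rfl⟩)⟩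
  have h3 := Pool.Agent.Y647.RG.xrep_count
    (G := G.map (Function.Embedding.some : V ↪ Option V)) (G' := xrep G a b c d e) hc
    (v := none) (a := some a) (b := some b) (c := some c) (d := some d) (e := some e)
    (by
      intro w hw
      simp only [Finset.mem_insert, Finset.mem_singleton] at hw
      rcases hw with rfl | rfl | rfl | rfl | rfl
      · exact hadj _ (by simp)
      · exact hadj _ (by simp)
      · exact hadj _ (by simp)
      · exact hadj _ (by simp)
      · exact hadj _ (by simp))
    (by
      rw [Finset.card_insert_of_notMem, Finset.card_insert_of_notMem,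
        Finset.card_insert_of_notMem, Finset.card_insert_of_notMem, Finset.card_singleton]
      all_goals simp [n1, n2, n3, n4, n5, n6, n7, n8, n9, n10])
    (by
      intro u hu
      rw [SimpleGraph.map_adj] at hu
      obtain ⟨x, y, -, hx, -⟩ := hu
      exact absurd hx (by simp))
    (by
      intro x y hxy
      rw [SimpleGraph.map_adj] at hxy
      obtain ⟨u, w, huw, rfl, rfl⟩ := hxy
      by_cases i1 : s(u, w) = s(a, b)
      · right
        left
        exact congrArg (Sym2.map some) i1
      by_cases i2 : s(u, w) = s(c, d)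
      · right
        right
        exact congrArg (Sym2.map some) i2
      left
      rw [xrep, SimpleGraph.fromRel_adj]
      refine ⟨?_, Or.inl (Or.inl ⟨u, w, rfl, rfl, huw, i1, i2⟩)⟩
      intro h
      exact huw.ne (Option.some.inj h))
  omega

end Pool.Agent.Results.MP_5e72fd_co.XClawFree
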