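import Mathlib
import Pool.Agent.Y530.TM.K
import Pool.Agent.Y794.TM.Xr

/-!
# X-replacements which produce graphs composed of rigid parts

If an X-replacement of a generically 3-independent graph is composed of rigid parts, then it is
generically 3-independent.

The counting argument (`Pool.Agent.Y794.TM.Xr`) is due to helper794.
-/

set_option autoImplicit false

namespace Pool.Agent.Results.MP_5e72fd_co.XRigidParts

open Pool.Agent.H789R5 Pool.Agent.H283R2.DR Pool.Agent.Y530.TM

/-- **X-replacements which produce graphs composed of rigid parts preserve generic
3-independence.** -/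
theorem result (V : Type) [Fintype V] (G : SimpleGraph V) (a b c d e : V)
    (hne : [a, b, c, d, e].Nodup) (hab : G.Adj a b) (hcd : G.Adj c d) (hG : Independent G)
    (hc : Composed (xrep G a b c d e)) : Independent (xrep G a b c d e) := by
  obtain ⟨C, _, γ, hγ⟩ := composed (Option V) (xrep G a b c d e) hc
  exact Pool.Agent.Y794.TM.Xr.t V C G a b c d e γ hne hab hcd hG hγ

end Pool.Agent.Results.MP_5e72fd_co.XRigidParts
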